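import Mathlib

set_option autoImplicit false

/-! Growth of a valuation along a chain of unit vectors of `ℝ³`, consecutive ones perpendicular. -/

namespace Pool.Agent.H58r

open Matrix

/-- Gram determinant identity. -/
lemma hr_gram (p q z u : Fin 3 → ℝ) :
    ((p ⨯₃ q) ⬝ᵥ z) * ((p ⨯₃ q) ⬝ᵥ u) =
      (p ⬝ᵥ p) * ((q ⬝ᵥ q) * (z ⬝ᵥ u) - (q ⬝ᵥ u) * (q ⬝ᵥ z))
      - (p ⬝ᵥ q) * ((p ⬝ᵥ q) * (z ⬝ᵥ u) - (q ⬝ᵥ u) * (p ⬝ᵥ z))
      + (p ⬝ᵥ u) * ((p ⬝ᵥ q) * (q ⬝ᵥ z) - (q ⬝ᵥ q) * (p ⬝ᵥ z)) := by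
  simp only [cross_apply, vec3_dotProduct, Matrix.cons_val_zero, Matrix.cons_val_one,
    Matrix.cons_val, Matrix.head_cons]
  ring

/-- Parseval for an orthonormal pair completed by the cross product. -/
lemma hr_parseval {p q : Fin 3 → ℝ} (hp : p ⬝ᵥ p = 1) (hq : q ⬝ᵥ q = 1) (hpq : p ⬝ᵥ q = 0)
    (z u : Fin 3 → ℝ) :
    z ⬝ᵥ u = (p ⬝ᵥ z) * (p ⬝ᵥ u) + (q ⬝ᵥ z) * (q ⬝ᵥ u)
      + ((p ⨯₃ q) ⬝ᵥ z) * ((p ⨯₃ q) ⬝ᵥ u) := by
  rw [hr_gram, hp, hq, hpq]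
  ring

lemma hr_expand {p q : Fin 3 → ℝ} (hp : p ⬝ᵥ p = 1) (hq : q ⬝ᵥ q = 1) (hpq : p ⬝ᵥ q = 0)
    (u : Fin 3 → ℝ) :
    u = (p ⬝ᵥ u) • p + (q ⬝ᵥ u) • q + ((p ⨯₃ q) ⬝ᵥ u) • (p ⨯₃ q) := by
  apply dotProduct_eq
  intro z
  rw [hr_parseval hp hq hpq u z]
  simp only [add_dotProduct, smul_dotProduct, smul_eq_mul]

lemma hr_cross_unit {p q : Fin 3 → ℝ} (hp : p ⬝ᵥ p = 1) (hq : q ⬝ᵥ q = 1) (hpq : p ⬝ᵥ q = 0) :
    (p ⨯₃ q) ⬝ᵥ (p ⨯₃ q) = 1 := by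
  rw [cross_dot_cross, hp, hq, hpq, dotProduct_comm q p, hpq]
  ring

lemma hr_cross_cross {p q : Fin 3 → ℝ} (hq : q ⬝ᵥ q = 1) (hpq : p ⬝ᵥ q = 0) :
    q ⨯₃ (p ⨯₃ q) = p := by
  have h : ∀ p q : Fin 3 → ℝ, q ⨯₃ (p ⨯₃ q) = (q ⬝ᵥ q) • p - (p ⬝ᵥ q) • q := by
    intro p q
    ext i
    fin_cases i <;>
    · simp [cross_apply, vec3_dotProduct]
      ring
  rw [h, hq, hpq]
  simp

section chain

variable {Γ₀ : Type*} [LinearOrderedCommGroupWithZero Γ₀] (w : Valuation ℝ Γ₀)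

lemma hr_val_sin {c s : ℝ} (hcs : c ^ 2 + s ^ 2 = 1) (hc : 1 < w c) : w s = w c := by
  have h1 : 1 < w c ^ 2 := one_lt_pow₀ hc two_ne_zero
  have h2 : w (s ^ 2) = w (c ^ 2) := by
    have : s ^ 2 = 1 - c ^ 2 := by linarith
    rw [this]
    apply Valuation.map_sub_eq_of_lt_right
    rw [map_one, map_pow]
    exact h1
  rw [map_pow, map_pow] at h2
  exact (pow_left_inj₀ zero_le' zero_le' two_ne_zero).mp h2

theorem hr_chain (e : ℕ → Fin 3 → ℝ) (h1 : ∀ n, e n ⬝ᵥ e n = 1)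
    (h0 : ∀ n, e n ⬝ᵥ e (n + 1) = 0) (h2 : ∀ n, 1 < w (e n ⬝ᵥ e (n + 2))) (n : ℕ) :
    1 < w (e 0 ⬝ᵥ e (n + 2)) := by
  -- coordinates
  have key : ∀ n, 1 < w (e 0 ⬝ᵥ (e (n + 1) ⨯₃ e (n + 2))) ∧
      w (e 0 ⬝ᵥ e (n + 2)) = w (e 0 ⬝ᵥ (e (n + 1) ⨯₃ e (n + 2))) ∧
      w (e 0 ⬝ᵥ e (n + 1)) < w (e 0 ⬝ᵥ (e (n + 1) ⨯₃ e (n + 2))) := by
    intro n
    induction n with
    | zero =>
      have hx := hr_expand (h1 0) (h1 1) (h0 0) (e 2)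
      have h12 : e 1 ⬝ᵥ e 2 = 0 := h0 1
      set c := e 0 ⬝ᵥ e 2 with hc
      set s := (e 0 ⨯₃ e 1) ⬝ᵥ e 2 with hs
      have hcs : c ^ 2 + s ^ 2 = 1 := by
        have := hr_parseval (h1 0) (h1 1) (h0 0) (e 2) (e 2)
        rw [h1 2, h12] at this
        rw [← hc, ← hs] at this
        nlinarith
      have hc1 : 1 < w c := h2 0
      have hws := hr_val_sin w hcs hc1
      have hy : e 0 ⬝ᵥ (e 1 ⨯₃ e 2) = s := by
        rw [hs]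
        rw [dotProduct_comm (e 0 ⨯₃ e 1) (e 2), ← triple_product_permutation,
          ← triple_product_permutation]
      have hx1 : e 0 ⬝ᵥ e 1 = 0 := h0 0
      simp only [zero_add]
      rw [hy, hx1, hws]
      refine ⟨hc1, rfl, ?_⟩
      rw [map_zero]
      exact lt_trans zero_lt_one hc1
    | succ n ih =>
      obtain ⟨i1, i2, i3⟩ := ih
      have hx := hr_expand (h1 (n + 1)) (h1 (n + 2)) (h0 (n + 1)) (e (n + 3))
      have h12 : e (n + 2) ⬝ᵥ e (n + 3) = 0 := h0 (n + 2)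
      set c := e (n + 1) ⬝ᵥ e (n + 3) with hc
      set s := (e (n + 1) ⨯₃ e (n + 2)) ⬝ᵥ e (n + 3) with hs
      have hcs : c ^ 2 + s ^ 2 = 1 := by
        have := hr_parseval (h1 (n + 1)) (h1 (n + 2)) (h0 (n + 1)) (e (n + 3)) (e (n + 3))
        rw [h1 (n + 3), h12] at this
        rw [← hc, ← hs] at this
        nlinarith
      have hc1 : 1 < w c := h2 (n + 1)
      have hws := hr_val_sin w hcs hc1
      rw [h12, zero_smul, add_zero] at hx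
      set x := e 0 ⬝ᵥ e (n + 1) with hxd
      set y := e 0 ⬝ᵥ (e (n + 1) ⨯₃ e (n + 2)) with hyd
      have hxn : e 0 ⬝ᵥ e (n + 3) = c * x + s * y := by
        rw [hx, dotProduct_add, dotProduct_smul, dotProduct_smul, smul_eq_mul, smul_eq_mul]
      have hyn : e 0 ⬝ᵥ (e (n + 2) ⨯₃ e (n + 3)) = s * x - c * y := by
        rw [hx]
        rw [map_add, map_smul, map_smul, hr_cross_cross (h1 (n + 2)) (h0 (n + 1)),
          ← cross_anticomm, dotProduct_add, dotProduct_smul, dotProduct_smul, dotProduct_neg,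
          smul_eq_mul, smul_eq_mul]
        ring
      have hc0 : 0 < w c := lt_trans zero_lt_one hc1
      have e1 : w (c * x) < w (s * y) := by
        rw [map_mul, map_mul, hws]
        exact (mul_lt_mul_iff_right₀ hc0).mpr i3
      have e2 : w (s * x) < w (c * y) := by
        rw [map_mul, map_mul, hws]
        exact (mul_lt_mul_iff_right₀ hc0).mpr i3
      have f1 : w (e 0 ⬝ᵥ e (n + 3)) = w c * w y := by
        rw [hxn, Valuation.map_add_eq_of_lt_right _ e1, map_mul, hws]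
      have f2 : w (e 0 ⬝ᵥ (e (n + 2) ⨯₃ e (n + 3))) = w c * w y := by
        rw [hyn, Valuation.map_sub_eq_of_lt_right _ e2, map_mul]
      have hy0 : 0 < w y := lt_trans zero_lt_one i1
      refine ⟨?_, ?_, ?_⟩
      · show 1 < w (e 0 ⬝ᵥ (e (n + 2) ⨯₃ e (n + 3)))
        rw [f2]
        exact one_lt_mul'' hc1 i1
      · show w (e 0 ⬝ᵥ e (n + 3)) = w (e 0 ⬝ᵥ (e (n + 2) ⨯₃ e (n + 3)))
        rw [f1, f2]
      · show w (e 0 ⬝ᵥ e (n + 2)) < w (e 0 ⬝ᵥ (e (n + 2) ⨯₃ e (n + 3)))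
        rw [f2, i2]
        calc w y = 1 * w y := (one_mul _).symm
          _ < w c * w y := (mul_lt_mul_iff_left₀ hy0).mpr hc1
  rw [(key n).2.1]
  exact (key n).1

end chain

end Pool.Agent.H58r
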