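import Pool.Agent.H58r.RectMain

set_option autoImplicit false

/-! Master theorem: for every valuation of `ℝ`, a closed up family of rectangles with a pair of
non-orthogonal adjacent rectangles has one whose angle has an integral cosine. -/

namespace Pool.Agent.H58r

open Matrix Filter Topology

lemma hr_dot_self_nonneg (x : Fin 3 → ℝ) : 0 ≤ x ⬝ᵥ x := by
  rw [vec3_dotProduct]
  nlinarith [mul_self_nonneg (x 0), mul_self_nonneg (x 1), mul_self_nonneg (x 2)]

lemma hr_dot_le {x y : Fin 3 → ℝ} (hx : x ⬝ᵥ x = 1) (hy : y ⬝ᵥ y = 1) :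
    -1 ≤ x ⬝ᵥ y ∧ x ⬝ᵥ y ≤ 1 := by
  have h1 := hr_dot_self_nonneg (x + y)
  have h2 := hr_dot_self_nonneg (x - y)
  rw [add_dotProduct, dotProduct_add, dotProduct_add, hx, hy, dotProduct_comm y x] at h1
  rw [sub_dotProduct, dotProduct_sub, dotProduct_sub, hx, hy, dotProduct_comm y x] at h2
  constructor <;> linarith

variable {ι : Type*} {R : ι → Rect}

lemma adjacent_of_opp {p : Fin 3 → ℝ} {f g : ι × Bool × Bool} (h : IsOpp R p f g) :
    (R f.1).Adjacent (R g.1) := by
  obtain ⟨h1, h2, h3, h4⟩ := h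
  obtain ⟨k, ε, hε, hm⟩ := (R f.1).flag_move h1
  obtain ⟨k', ε', hε', hm'⟩ := (R g.1).flag_move h2
  have h4' : (R g.1).dir g.2.1 g.2.2 = (R f.1).dir f.2.1 f.2.2 := h4
  rw [h4'] at hm'
  have hδ : 0 < min ε ε' := lt_min hε hε'
  refine ⟨p, p + (min ε ε') • dr R f, ?_, ?_⟩
  · intro h
    have h5 : (min ε ε') • dr R f = 0 := by
      have := congrArg (fun z => z - p) h
      simpa using this.symm
    have h6 := congrArg (fun z => z ⬝ᵥ dr R f) h5
    simp only [smul_dotProduct, dr_unit, smul_eq_mul, mul_one, zero_dotProduct] at h6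
    exact hδ.ne' h6
  · rintro z ⟨α, β, hα, hβ, hαβ, rfl⟩
    have h5 : α • p + β • (p + (min ε ε') • dr R f) = p + (β * min ε ε') • dr R f := by
      have : α = 1 - β := by linarith
      rw [this]
      module
    rw [h5]
    have hβ1 : β ≤ 1 := by linarith
    have h6 : 0 ≤ β * min ε ε' := mul_nonneg hβ hδ.le
    have h7 : β * min ε ε' ≤ min ε ε' := by nlinarith
    exact ⟨(R f.1).side_subset _ _ (hm _ h6 (h7.trans (min_le_left _ _))),
      (R g.1).side_subset _ _ (hm' _ h6 (h7.trans (min_le_right _ _)))⟩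

lemma opp_of_adjacent {i j : ι} (hij : i ≠ j) (h : (R i).Adjacent (R j)) :
    ∃ x ax sg ax' sg', IsOpp R x (i, ax, sg) (j, ax', sg') := by
  obtain ⟨x, y, hxy, hseg⟩ := h
  obtain ⟨e, L, hL, he, rfl⟩ := exists_unit hxy
  have hev : ∀ᶠ t in 𝓝[>] (0 : ℝ), x + t • e ∈ (R i).boundary ∩ (R j).boundary := by
    filter_upwards [Ioo_mem_nhdsGT hL] with t ht
    apply hseg
    refine ⟨1 - t / L, t / L, ?_, div_nonneg ht.1.le hL.le, by ring, ?_⟩
    · rw [sub_nonneg, div_le_one hL]; exact ht.2.le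
    · have hL' := hL.ne'
      have : (t / L) * L = t := by field_simp
      rw [smul_add, smul_smul, this]
      module
  obtain ⟨a1, a2, a3, a4, h⟩ := isOpp_of_frequently (R := R) hij he
    ((hev.mono fun t ht => ht.1).frequently) ((hev.mono fun t ht => ht.2).frequently)
  exact ⟨x, a1, a2, a3, a4, h⟩


/-- `P.angle Q` is `0`, `π/2` or `π` -/
lemma angle_of_dot {P Q : Rect} (h : P.normal ⬝ᵥ Q.normal = 0 ∨ P.normal ⬝ᵥ Q.normal = 1 ∨
    P.normal ⬝ᵥ Q.normal = -1) : ∃ k : ℤ, P.angle Q = k * (Real.pi / 2) := by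
  rcases h with h | h | h
  · exact ⟨1, by rw [Rect.angle, h, Real.arccos_zero]; norm_num⟩
  · exact ⟨0, by rw [Rect.angle, h, Real.arccos_one]; norm_num⟩
  · exact ⟨2, by rw [Rect.angle, h, Real.arccos_neg_one]; push_cast; ring⟩

lemma cos_angle (P Q : Rect) : Real.cos (P.angle Q) = P.normal ⬝ᵥ Q.normal := by
  have h := hr_dot_le P.normal_unit Q.normal_unit
  exact Real.cos_arccos h.1 h.2

lemma dot_of_angle {P Q : Rect} (h : ∃ k : ℤ, P.angle Q = k * (Real.pi / 2)) :
    P.normal ⬝ᵥ Q.normal = 0 ∨ P.normal ⬝ᵥ Q.normal = 1 ∨ P.normal ⬝ᵥ Q.normal = -1 := by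
  obtain ⟨k, hk⟩ := h
  rw [← cos_angle, hk]
  have hs : Real.sin (k * Real.pi) = 0 := Real.sin_int_mul_pi k
  have h2 : (k : ℝ) * Real.pi = 2 * (k * (Real.pi / 2)) := by ring
  rw [h2, Real.sin_two_mul] at hs
  rcases mul_eq_zero.mp hs with h3 | h3
  · have h4 : Real.sin (k * (Real.pi / 2)) = 0 := by
      rcases mul_eq_zero.mp h3 with h5 | h5
      · exact absurd h5 two_ne_zero
      · exact h5
    right
    have h5 := Real.sin_sq_add_cos_sq (k * (Real.pi / 2))
    rw [h4] at h5
    have h6 : Real.cos (k * (Real.pi / 2)) * Real.cos (k * (Real.pi / 2)) = 1 := by nlinarith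
    exact mul_self_eq_one_iff.mp h6
  · left; exact h3

/-- equal frames: perpendicular or parallel normals -/
lemma dot_of_frame {P Q : Rect} (hfr : Q.frame = P.frame) :
    P.normal ⬝ᵥ Q.normal = 0 ∨ P.normal ⬝ᵥ Q.normal = 1 ∨ P.normal ⬝ᵥ Q.normal = -1 := by
  have hn : Q.normal ∈ tri P.a P.normal := by
    have h1 : Q.normal ∈ Q.frame := Or.inr (Or.inr (Or.inl rfl))
    rw [hfr] at h1
    exact h1
  have ha : P.normal ⬝ᵥ P.a = 0 := by
    rw [dotProduct_comm, Rect.normal, dot_self_cross]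
  have hnn := P.normal_unit
  rcases hn with h | h | h | h | h | h <;> rw [h]
  · left; exact ha
  · left; rw [dotProduct_neg, ha, neg_zero]
  · right; left; exact hnn
  · right; right; rw [dotProduct_neg, hnn]
  · left; rw [dot_cross_self]
  · left; rw [dotProduct_neg, dot_cross_self, neg_zero]

/-- MASTER THEOREM. Let `R` be a finite closed up family of rectangles and `B` a valuation ring of
`ℝ`. If every angle of adjacent rectangles is a multiple of `π / 2` or has its cosine outside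
`B`, then all these angles are multiples of `π / 2`. -/
theorem rect_master [Finite ι] (hR : ClosedUp R) (B : ValuationSubring ℝ)
    (hang : ∀ i j, i ≠ j → (R i).Adjacent (R j) →
      (∃ k : ℤ, (R i).angle (R j) = k * (Real.pi / 2)) ∨ Real.cos ((R i).angle (R j)) ∉ B) :
    ∀ i j, i ≠ j → (R i).Adjacent (R j) → ∃ k : ℤ, (R i).angle (R j) = k * (Real.pi / 2) := by
  have hempty := badSet_eq_empty B.valuation hR (by
    intro p f g hfg hne
    have hadj := adjacent_of_opp hfg
    have hd : (R f.1).dir f.2.1 f.2.2 = (R g.1).dir g.2.1 g.2.2 := hfg.2.2.2.symm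
    rcases hang f.1 g.1 hfg.2.2.1.symm hadj with h | h
    · exfalso
      rcases dot_of_angle h with h0 | h1 | h2
      · exact hne ((R f.1).frame_eq (R g.1) hd (Or.inl h0))
      · exact hne ((R f.1).frame_eq (R g.1) hd (Or.inr (Or.inl
          (hr_eq_of_dot (R f.1).normal_unit (R g.1).normal_unit h1))))
      · exact hne ((R f.1).frame_eq (R g.1) hd (Or.inr (Or.inr
          (hr_eq_neg_of_dot (R f.1).normal_unit (R g.1).normal_unit h2))))
    · rw [cos_angle, ← ValuationSubring.valuation_le_one_iff, not_le] at h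
      exact h)
  intro i j hij hadj
  obtain ⟨x, ax, sg, ax', sg', hopp⟩ := opp_of_adjacent hij hadj
  apply angle_of_dot
  apply dot_of_frame
  by_contra h
  obtain ⟨ε, hε, hm⟩ := badSet_of_bad (R := R) (x := x) (f := (i, ax, sg)) ⟨_, hopp, h⟩
  have := hm 0 le_rfl hε.le
  rw [hempty] at this
  exact this

end Pool.Agent.H58r
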