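import Pool.Agent.H58r.RectDefs

set_option autoImplicit false

/-! Sides and flags of a rectangle. -/

namespace Pool.Agent.H58r

open Matrix Filter Topology

namespace Rect

/-- The same rectangle with the two side directions exchanged. -/
def swap (P : Rect) : Rect where
  c := P.c
  a := P.b
  b := P.a
  l := P.m
  m := P.l
  ha := P.hb
  hb := P.ha
  hab := by rw [dotProduct_comm]; exact P.hab
  hl := P.hm
  hm := P.hl

def ori (P : Rect) (ax : Bool) : Rect := if ax then P else P.swap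

@[simp] lemma ori_true (P : Rect) : P.ori true = P := rfl
@[simp] lemma ori_false (P : Rect) : P.ori false = P.swap := rfl

/-- One of the two sides parallel to `a`. -/
def sideA (P : Rect) (k : Bool) : Set (Fin 3 → ℝ) :=
  {x | ∃ s : ℝ, 0 ≤ s ∧ s ≤ P.l ∧ x = P.c + s • P.a + (if k then P.m else 0) • P.b}

def sgn (sg : Bool) : ℝ := if sg then 1 else -1

@[simp] lemma sgn_true : sgn true = 1 := rfl
@[simp] lemma sgn_false : sgn false = -1 := rfl

lemma sgn_mul_self (sg : Bool) : sgn sg * sgn sg = 1 := by cases sg <;> simp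

/-- `p` lies on a side parallel to `a` and is not its last point in the direction `± a`. -/
def flagA (P : Rect) (p : Fin 3 → ℝ) (sg : Bool) : Prop :=
  ∃ (k : Bool) (s : ℝ), p = P.c + s • P.a + (if k then P.m else 0) • P.b ∧
    (if sg then 0 ≤ s ∧ s < P.l else 0 < s ∧ s ≤ P.l)

def dir (P : Rect) (ax sg : Bool) : Fin 3 → ℝ := sgn sg • (P.ori ax).a

def IsFlag (P : Rect) (p : Fin 3 → ℝ) (ax sg : Bool) : Prop := (P.ori ax).flagA p sg

def side (P : Rect) (ax k : Bool) : Set (Fin 3 → ℝ) := (P.ori ax).sideA k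

lemma mem_boundary_iff (P : Rect) (x : Fin 3 → ℝ) :
    x ∈ P.boundary ↔ ∃ ax k, x ∈ P.side ax k := by
  constructor
  · rintro ⟨s, t, hs0, hs1, ht0, ht1, h | h | h | h, rfl⟩
    · exact ⟨false, false, t, ht0, ht1, by simp [swap, h]⟩
    · exact ⟨false, true, t, ht0, ht1, by simp [swap, h]; abel⟩
    · exact ⟨true, false, s, hs0, hs1, by simp [h]⟩
    · exact ⟨true, true, s, hs0, hs1, by simp [h]⟩
  · rintro ⟨ax, k, s, hs0, hs1, rfl⟩
    cases ax <;> cases k
    · exact ⟨0, s, le_rfl, P.hl.le, hs0, hs1, Or.inl rfl, by simp [swap]⟩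
    · exact ⟨P.l, s, P.hl.le, le_rfl, hs0, hs1, Or.inr (Or.inl rfl), by simp [swap]; abel⟩
    · exact ⟨s, 0, hs0, hs1, le_rfl, P.hm.le, Or.inr (Or.inr (Or.inl rfl)), by simp⟩
    · exact ⟨s, P.m, hs0, hs1, P.hm.le, le_rfl, Or.inr (Or.inr (Or.inr rfl)), by simp⟩

lemma side_subset (P : Rect) (ax k : Bool) : P.side ax k ⊆ P.boundary := by
  intro x hx
  exact (P.mem_boundary_iff x).mpr ⟨ax, k, hx⟩

lemma a_ne (P : Rect) : P.a ≠ 0 := by
  intro h
  have := P.ha
  rw [h, dotProduct_zero] at this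
  exact zero_ne_one this

lemma dir_unit (P : Rect) (ax sg : Bool) : P.dir ax sg ⬝ᵥ P.dir ax sg = 1 := by
  rw [dir, smul_dotProduct, dotProduct_smul, (P.ori ax).ha, smul_eq_mul, smul_eq_mul, mul_one,
    sgn_mul_self]

lemma coord_unique (P : Rect) {s t s' t' : ℝ}
    (h : P.c + s • P.a + t • P.b = P.c + s' • P.a + t' • P.b) : s = s' ∧ t = t' := by
  have h1 : s • P.a + t • P.b = s' • P.a + t' • P.b := by
    rw [add_assoc, add_assoc] at h
    exact add_left_cancel h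
  constructor
  · have := congrArg (fun x => P.a ⬝ᵥ x) h1
    simpa [dotProduct_add, dotProduct_smul, P.ha, P.hab] using this
  · have hba : P.b ⬝ᵥ P.a = 0 := by rw [dotProduct_comm]; exact P.hab
    have := congrArg (fun x => P.b ⬝ᵥ x) h1
    simpa [dotProduct_add, dotProduct_smul, P.hb, hba] using this

lemma flagA_iff (P : Rect) {s t : ℝ} (sg : Bool) :
    P.flagA (P.c + s • P.a + t • P.b) sg ↔
      (t = 0 ∨ t = P.m) ∧ (if sg then 0 ≤ s ∧ s < P.l else 0 < s ∧ s ≤ P.l) := by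
  constructor
  · rintro ⟨k, s', h, hs⟩
    obtain ⟨h1, h2⟩ := P.coord_unique h
    rw [h1]
    refine ⟨?_, hs⟩
    cases k
    · left; simpa using h2
    · right; simpa using h2
  · rintro ⟨h | h, hs⟩
    · exact ⟨false, s, by simp [h], hs⟩
    · exact ⟨true, s, by simp [h], hs⟩

/-- moving from a flag along its direction stays in a side for a while -/
lemma flagA_move (P : Rect) {p : Fin 3 → ℝ} {sg : Bool} (h : P.flagA p sg) :
    ∃ (k : Bool) (ε : ℝ), 0 < ε ∧ ∀ t, 0 ≤ t → t ≤ ε → p + t • (sgn sg • P.a) ∈ P.sideA k := by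
  obtain ⟨k, s, rfl, hs⟩ := h
  refine ⟨k, ?_⟩
  cases sg
  · simp only [Bool.false_eq_true, if_false] at hs
    refine ⟨s, hs.1, fun t ht0 ht => ⟨s - t, by linarith, by linarith [hs.2], ?_⟩⟩
    simp only [sgn_false]
    module
  · simp only [if_true] at hs
    refine ⟨P.l - s, by linarith [hs.2], fun t ht0 ht => ⟨s + t, by linarith, by linarith, ?_⟩⟩
    simp only [sgn_true]
    module

lemma flag_move (P : Rect) {p : Fin 3 → ℝ} {ax sg : Bool} (h : P.IsFlag p ax sg) :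
    ∃ (k : Bool) (ε : ℝ), 0 < ε ∧ ∀ t, 0 ≤ t → t ≤ ε → p + t • P.dir ax sg ∈ P.side ax k :=
  flagA_move _ h

/-- if arbitrarily short moves in a unit direction stay in a side parallel to `a`, the direction
is `± a` and there is a flag -/
lemma flagA_of_frequently (P : Rect) {p e : Fin 3 → ℝ} (he : e ⬝ᵥ e = 1) {k : Bool}
    (h : ∃ᶠ t in 𝓝[>] (0 : ℝ), p + t • e ∈ P.sideA k) :
    ∃ sg, P.flagA p sg ∧ sgn sg • P.a = e := by
  -- two different times
  have h1 : ∃ t1 : ℝ, 0 < t1 ∧ p + t1 • e ∈ P.sideA k := by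
    have := (h.and_eventually (self_mem_nhdsWithin)).exists
    obtain ⟨t, ht, ht'⟩ := this
    exact ⟨t, ht', ht⟩
  obtain ⟨t1, ht1, s1, hs10, hs11, e1⟩ := h1
  have h2 : ∃ t2 : ℝ, 0 < t2 ∧ t2 < t1 ∧ p + t2 • e ∈ P.sideA k := by
    have hI : ∀ᶠ t in 𝓝[>] (0 : ℝ), t ∈ Set.Ioo 0 t1 := Ioo_mem_nhdsGT ht1
    obtain ⟨t, ht, ht'⟩ := (h.and_eventually hI).exists
    exact ⟨t, ht'.1, ht'.2, ht⟩
  obtain ⟨t2, ht2, ht21, s2, hs20, hs21, e2⟩ := h2
  have hd : (t1 - t2) • e = (s1 - s2) • P.a := by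
    have : (p + t1 • e) - (p + t2 • e) = (s1 - s2) • P.a := by
      rw [e1, e2]; module
    rw [← this]; module
  have hne : t1 - t2 ≠ 0 := by linarith
  set κ := (s1 - s2) / (t1 - t2) with hκ
  have hea : e = κ • P.a := by
    have h3 : e = (t1 - t2)⁻¹ • ((t1 - t2) • e) := by
      rw [smul_smul, inv_mul_cancel₀ hne, one_smul]
    rw [h3, hd, smul_smul, hκ]
    congr 1
    field_simp
  have hκ2 : κ * κ = 1 := by
    have := he
    rw [hea, smul_dotProduct, dotProduct_smul, P.ha, smul_eq_mul, smul_eq_mul, mul_one] at this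
    exact this
  have hκ1 : κ = 1 ∨ κ = -1 := mul_self_eq_one_iff.mp hκ2
  -- parameter of p
  set s0 := s1 - κ * t1 with hs0
  have hp : p = P.c + s0 • P.a + (if k then P.m else 0) • P.b := by
    have h4 : p = (p + t1 • e) - t1 • e := by module
    rw [h4, e1, hea, hs0]
    module
  have hmem : ∀ t, p + t • e ∈ P.sideA k → 0 ≤ s0 + κ * t ∧ s0 + κ * t ≤ P.l := by
    rintro t ⟨s, hs, hs', h5⟩
    have h6 : p + t • e = P.c + (s0 + κ * t) • P.a + (if k then P.m else 0) • P.b := by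
      rw [hea]
      nth_rewrite 1 [hp]
      module
    rw [h6] at h5
    have := (P.coord_unique h5).1
    rw [this]
    exact ⟨hs, hs'⟩
  have hlim : Tendsto (fun t : ℝ => s0 + κ * t) (𝓝[>] 0) (𝓝 s0) := by
    have : Tendsto (fun t : ℝ => s0 + κ * t) (𝓝 0) (𝓝 (s0 + κ * 0)) := by
      apply Continuous.tendsto
      fun_prop
    rw [mul_zero, add_zero] at this
    exact this.mono_left nhdsWithin_le_nhds
  have hs0' : 0 ≤ s0 ∧ s0 ≤ P.l := by
    have hcl : IsClosed (Set.Icc (0 : ℝ) P.l) := isClosed_Icc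
    have : s0 ∈ Set.Icc (0 : ℝ) P.l := by
      by_contra hcon
      have hopen : (Set.Icc (0 : ℝ) P.l)ᶜ ∈ 𝓝 s0 := hcl.isOpen_compl.mem_nhds hcon
      have hev := hlim hopen
      obtain ⟨t, ht, ht'⟩ := (h.and_eventually hev).exists
      exact ht' (hmem t ht)
    exact this
  have hm1 := hmem t1 ⟨s1, hs10, hs11, e1⟩
  rcases hκ1 with hk | hk
  · refine ⟨true, ⟨k, s0, hp, ?_⟩, by rw [hea, hk]; simp⟩
    simp only [if_true]
    rw [hk] at hm1
    exact ⟨hs0'.1, by linarith [hm1.2]⟩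
  · refine ⟨false, ⟨k, s0, hp, ?_⟩, by rw [hea, hk]; simp⟩
    simp only [Bool.false_eq_true, if_false]
    rw [hk] at hm1
    exact ⟨by linarith [hm1.1], hs0'.2⟩

lemma flag_of_frequently (P : Rect) {p e : Fin 3 → ℝ} (he : e ⬝ᵥ e = 1)
    (h : ∃ᶠ t in 𝓝[>] (0 : ℝ), p + t • e ∈ P.boundary) :
    ∃ ax sg, P.IsFlag p ax sg ∧ P.dir ax sg = e := by
  have h1 : ∃ᶠ t in 𝓝[>] (0 : ℝ), (p + t • e ∈ P.side true true ∨ p + t • e ∈ P.side true false)
      ∨ (p + t • e ∈ P.side false true ∨ p + t • e ∈ P.side false false) := by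
    refine h.mono fun t ht => ?_
    obtain ⟨ax, k, hk⟩ := (P.mem_boundary_iff _).mp ht
    cases ax <;> cases k <;> tauto
  rw [frequently_or_distrib, frequently_or_distrib, frequently_or_distrib] at h1
  rcases h1 with (h1 | h1) | (h1 | h1)
  · obtain ⟨sg, h2, h3⟩ := flagA_of_frequently _ he h1
    exact ⟨true, sg, h2, h3⟩
  · obtain ⟨sg, h2, h3⟩ := flagA_of_frequently _ he h1
    exact ⟨true, sg, h2, h3⟩
  · obtain ⟨sg, h2, h3⟩ := flagA_of_frequently _ he h1
    exact ⟨false, sg, h2, h3⟩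
  · obtain ⟨sg, h2, h3⟩ := flagA_of_frequently _ he h1
    exact ⟨false, sg, h2, h3⟩

end Rect

end Pool.Agent.H58r
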