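import Mathlib

set_option autoImplicit false

/-! Rectangles in `ℝ³` and families of rectangles closed up along their sides. -/

namespace Pool.Agent.H58r

open Matrix

/-- A rectangle in `ℝ³` (with the standard dot product): corner `c`, orthonormal directions
`a`, `b` of its sides, side lengths `l` (along `a`) and `m` (along `b`). It is the set of all
`c + s a + t b` with `0 ≤ s ≤ l`, `0 ≤ t ≤ m`. -/
structure Rect where
  c : Fin 3 → ℝ
  a : Fin 3 → ℝ
  b : Fin 3 → ℝ
  l : ℝ
  m : ℝ
  ha : a ⬝ᵥ a = 1
  hb : b ⬝ᵥ b = 1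
  hab : a ⬝ᵥ b = 0
  hl : 0 < l
  hm : 0 < m

namespace Rect

/-- The union of the four sides of the rectangle. -/
def boundary (P : Rect) : Set (Fin 3 → ℝ) :=
  {x | ∃ s t : ℝ, 0 ≤ s ∧ s ≤ P.l ∧ 0 ≤ t ∧ t ≤ P.m ∧
    (s = 0 ∨ s = P.l ∨ t = 0 ∨ t = P.m) ∧ x = P.c + s • P.a + t • P.b}

/-- A unit normal vector of the plane of the rectangle. -/
def normal (P : Rect) : Fin 3 → ℝ := P.a ⨯₃ P.b

/-- Two rectangles are adjacent if sides of them share a segment of positive length. -/
def Adjacent (P Q : Rect) : Prop :=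
  ∃ x y : Fin 3 → ℝ, x ≠ y ∧ segment ℝ x y ⊆ P.boundary ∩ Q.boundary

/-- The angle in `[0, π]` between the normals of two rectangles. If the rectangles are adjacent,
their dihedral angle (from either side) is `θ`, `π - θ`, `π + θ` or `2π - θ`, `θ` this angle. -/
noncomputable def angle (P Q : Rect) : ℝ := Real.arccos (P.normal ⬝ᵥ Q.normal)

end Rect

/-- All but finitely many points of the boundary of each rectangle of the family lie on the
boundary of exactly one other rectangle of the family. -/
def ClosedUp {ι : Type*} (R : ι → Rect) : Prop :=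
  ∀ i, {x | x ∈ (R i).boundary ∧ ¬ ∃! j, j ≠ i ∧ x ∈ (R j).boundary}.Finite

end Pool.Agent.H58r
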