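import Pool.Agent.H58r.RectDefs
import Pool.Agent.H58r.RectBasic
import Pool.Agent.H58r.Chain

set_option autoImplicit false

/-! The frame `{±a, ±b, ±n}` of a rectangle. -/

namespace Pool.Agent.H58r

open Matrix

/-- unit vectors with scalar product 1 are equal -/
lemma hr_eq_of_dot {x y : Fin 3 → ℝ} (hx : x ⬝ᵥ x = 1) (hy : y ⬝ᵥ y = 1) (h : x ⬝ᵥ y = 1) :
    y = x := by
  have h1 : (y - x) ⬝ᵥ (y - x) = 0 := by
    rw [sub_dotProduct, dotProduct_sub, dotProduct_sub, hx, hy, h, dotProduct_comm y x, h]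
    ring
  have h2 := dotProduct_self_eq_zero.mp h1
  exact sub_eq_zero.mp h2

lemma hr_eq_neg_of_dot {x y : Fin 3 → ℝ} (hx : x ⬝ᵥ x = 1) (hy : y ⬝ᵥ y = 1)
    (h : x ⬝ᵥ y = -1) : y = -x := by
  have h1 : (-x) ⬝ᵥ y = 1 := by rw [neg_dotProduct, h, neg_neg]
  have h2 : (-x) ⬝ᵥ (-x) = 1 := by rw [neg_dotProduct, dotProduct_neg, hx, neg_neg]
  exact hr_eq_of_dot h2 hy h1

/-- the set `{±e, ±n, ±(e×n)}` -/
def tri (e n : Fin 3 → ℝ) : Set (Fin 3 → ℝ) :=
  {x | x = e ∨ x = -e ∨ x = n ∨ x = -n ∨ x = e ⨯₃ n ∨ x = -(e ⨯₃ n)}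

lemma tri_neg_right (e n : Fin 3 → ℝ) : tri e (-n) = tri e n := by
  ext x
  simp only [tri, Set.mem_setOf_eq, map_neg, neg_neg]
  tauto

lemma tri_neg_left (e n : Fin 3 → ℝ) : tri (-e) n = tri e n := by
  ext x
  simp only [tri, Set.mem_setOf_eq, map_neg, neg_neg, LinearMap.neg_apply]
  tauto

/-- the six unit vectors of the frame of a rectangle -/
def Rect.frame (P : Rect) : Set (Fin 3 → ℝ) := tri P.a P.normal

namespace Rect

lemma normal_unit (P : Rect) : P.normal ⬝ᵥ P.normal = 1 := hr_cross_unit P.ha P.hb P.hab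

lemma dir_normal (P : Rect) (ax sg : Bool) : P.dir ax sg ⬝ᵥ P.normal = 0 := by
  cases ax
  · simp only [dir, ori_false, swap, normal, smul_dotProduct, dot_cross_self, smul_zero]
  · simp only [dir, ori_true, normal, smul_dotProduct, dot_self_cross, smul_zero]

lemma a_cross_normal (P : Rect) : P.a ⨯₃ P.normal = -P.b := by
  have h := hr_cross_cross (p := P.b) (q := P.a) P.ha (by rw [dotProduct_comm]; exact P.hab)
  rw [normal, ← cross_anticomm P.b P.a, map_neg, h]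

lemma b_cross_normal (P : Rect) : P.b ⨯₃ P.normal = P.a := by
  have h := hr_cross_cross (p := P.a) (q := P.b) P.hb P.hab
  rw [normal, h]

lemma frame_eq_tri (P : Rect) (ax sg : Bool) : P.frame = tri (P.dir ax sg) P.normal := by
  have hb : tri P.b P.normal = P.frame := by
    ext x
    simp only [frame, tri, Set.mem_setOf_eq, a_cross_normal, b_cross_normal, neg_neg]
    tauto
  cases ax <;> cases sg
  · have : P.dir false false = -P.b := by simp [dir, swap]
    rw [this, tri_neg_left, hb]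
  · have : P.dir false true = P.b := by simp [dir, swap]
    rw [this, hb]
  · have : P.dir true false = -P.a := by simp [dir]
    rw [this, tri_neg_left]; rfl
  · have : P.dir true true = P.a := by simp [dir]
    rw [this]; rfl

end Rect

/-- replacing `n` by a perpendicular unit vector (both perpendicular to `e`) does not change
the frame -/
lemma tri_perp {e n n' : Fin 3 → ℝ} (he : e ⬝ᵥ e = 1) (hn : n ⬝ᵥ n = 1) (hn' : n' ⬝ᵥ n' = 1)
    (hen : e ⬝ᵥ n = 0) (hen' : e ⬝ᵥ n' = 0) (h : n ⬝ᵥ n' = 0) : tri e n' = tri e n := by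
  have hc : (e ⨯₃ n) ⬝ᵥ (e ⨯₃ n) = 1 := hr_cross_unit he hn hen
  have hx := hr_parseval he hn hen n' n'
  rw [hn', hen', h] at hx
  have hk : ((e ⨯₃ n) ⬝ᵥ n') * ((e ⨯₃ n) ⬝ᵥ n') = 1 := by linarith
  have hee : e ⨯₃ (e ⨯₃ n) = -n := by
    have h1 := hr_cross_cross (p := n) (q := e) he (by rw [dotProduct_comm]; exact hen)
    rw [← cross_anticomm n e, map_neg, h1]
  have hcase : n' = e ⨯₃ n ∨ n' = -(e ⨯₃ n) := by
    rcases mul_self_eq_one_iff.mp hk with h1 | h1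
    · exact Or.inl (hr_eq_of_dot hc hn' h1)
    · exact Or.inr (hr_eq_neg_of_dot hc hn' h1)
  have hmain : tri e (e ⨯₃ n) = tri e n := by
    ext x
    simp only [tri, Set.mem_setOf_eq, hee, neg_neg]
    tauto
  rcases hcase with h1 | h1
  · rw [h1, hmain]
  · rw [h1, tri_neg_right, hmain]

/-- Adjacent rectangles whose planes are perpendicular or equal have the same frame. -/
lemma Rect.frame_eq (P Q : Rect) {ax sg ax' sg' : Bool} (hd : P.dir ax sg = Q.dir ax' sg')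
    (h : P.normal ⬝ᵥ Q.normal = 0 ∨ Q.normal = P.normal ∨ Q.normal = -P.normal) :
    Q.frame = P.frame := by
  rw [P.frame_eq_tri ax sg, Q.frame_eq_tri ax' sg', ← hd]
  rcases h with h | h | h
  · exact tri_perp (P.dir_unit ax sg) P.normal_unit Q.normal_unit (P.dir_normal ax sg)
      (by rw [hd]; exact Q.dir_normal ax' sg') h
  · rw [h]
  · rw [h, tri_neg_right]

/-- the elements of a frame are equal, opposite or perpendicular -/
lemma tri_trichotomy {e n : Fin 3 → ℝ} (hen : e ⬝ᵥ n = 0) {x : Fin 3 → ℝ} (hx : x ∈ tri e n) :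
    x = e ∨ x = -e ∨ e ⬝ᵥ x = 0 := by
  rcases hx with h | h | h | h | h | h
  · exact Or.inl h
  · exact Or.inr (Or.inl h)
  · right; right; rw [h, hen]
  · right; right; rw [h, dotProduct_neg, hen, neg_zero]
  · right; right; rw [h, dot_self_cross]
  · right; right; rw [h, dotProduct_neg, dot_self_cross, neg_zero]

lemma tri_perp_cases {e n : Fin 3 → ℝ} (he : e ⬝ᵥ e = 1) {x : Fin 3 → ℝ} (hx : x ∈ tri e n)
    (hxe : x ⬝ᵥ e = 0) : ∃ κ : ℝ, κ * κ = 1 ∧ (x = κ • n ∨ x = κ • (e ⨯₃ n)) := by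
  rcases hx with h | h | h | h | h | h
  · exfalso; rw [h, he] at hxe; exact one_ne_zero hxe
  · exfalso; rw [h, neg_dotProduct, he] at hxe; norm_num at hxe
  · exact ⟨1, by norm_num, Or.inl (by rw [one_smul, h])⟩
  · exact ⟨-1, by norm_num, Or.inl (by rw [neg_one_smul, h])⟩
  · exact ⟨1, by norm_num, Or.inr (by rw [one_smul, h])⟩
  · exact ⟨-1, by norm_num, Or.inr (by rw [neg_one_smul, h])⟩

section val

variable {Γ₀ : Type*} [LinearOrderedCommGroupWithZero Γ₀] (w : Valuation ℝ Γ₀)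

lemma hr_val_unit {κ : ℝ} (h : κ * κ = 1) : w κ = 1 := by
  have h1 : w κ * w κ = 1 := by rw [← map_mul, h, map_one]
  rw [← pow_two] at h1
  exact (pow_left_inj₀ zero_le' zero_le' two_ne_zero).mp (by rw [h1, one_pow])

/-- Two frames sharing the direction `e`: if the value of `n . n'` is > 1 then so is the value
of `x . y` for all `x`, `y` in the two frames perpendicular to `e`. -/
lemma tri_val {e n n' : Fin 3 → ℝ} (he : e ⬝ᵥ e = 1) (hn : n ⬝ᵥ n = 1) (hn' : n' ⬝ᵥ n' = 1)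
    (hen : e ⬝ᵥ n = 0) (hen' : e ⬝ᵥ n' = 0) (hw : 1 < w (n ⬝ᵥ n')) {x y : Fin 3 → ℝ}
    (hx : x ∈ tri e n) (hxe : x ⬝ᵥ e = 0) (hy : y ∈ tri e n') (hye : y ⬝ᵥ e = 0) :
    1 < w (x ⬝ᵥ y) := by
  have hpar := hr_parseval he hn hen n' n'
  rw [hn', hen'] at hpar
  have hcs : (n ⬝ᵥ n') ^ 2 + ((e ⨯₃ n) ⬝ᵥ n') ^ 2 = 1 := by linarith
  have hs : w ((e ⨯₃ n) ⬝ᵥ n') = w (n ⬝ᵥ n') := hr_val_sin w hcs hw
  have h1 : (e ⨯₃ n) ⬝ᵥ (e ⨯₃ n') = n ⬝ᵥ n' := by
    rw [cross_dot_cross, he, hen', dotProduct_comm n e, hen]; ring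
  have h2 : n ⬝ᵥ (e ⨯₃ n') = -((e ⨯₃ n) ⬝ᵥ n') := by
    simp only [cross_apply, vec3_dotProduct, Matrix.cons_val_zero, Matrix.cons_val_one,
      Matrix.cons_val]
    ring
  obtain ⟨κ, hκ, hx'⟩ := tri_perp_cases he hx hxe
  obtain ⟨μ, hμ, hy'⟩ := tri_perp_cases he hy hye
  have hwκ := hr_val_unit w hκ
  have hwμ := hr_val_unit w hμ
  rcases hx' with hx' | hx' <;> rcases hy' with hy' | hy' <;>
    rw [hx', hy', smul_dotProduct, dotProduct_smul, smul_eq_mul, smul_eq_mul, map_mul, map_mul,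
      hwκ, hwμ, one_mul, one_mul]
  · exact hw
  · rw [h2, Valuation.map_neg, hs]; exact hw
  · rw [hs]; exact hw
  · rw [h1]; exact hw

end val

end Pool.Agent.H58r
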