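import Mathlib

set_option autoImplicit false

/-! Valuations over 2 of cosines of rational multiples of `π`. -/

namespace Pool.Agent.H58r

open Complex

lemma hr_sq_one {z : ℂ} (h : z ^ 2 = 1) : z = 1 ∨ z = -1 := by
  have h5 : (z - 1) * (z + 1) = 0 := by ring_nf; rw [h]; ring
  rcases mul_eq_zero.mp h5 with h6 | h6
  · exact Or.inl (sub_eq_zero.mp h6)
  · exact Or.inr (eq_neg_of_add_eq_zero_left h6)

section val

variable {Γ₀ : Type*} [LinearOrderedCommGroupWithZero Γ₀] (v : Valuation ℂ Γ₀)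

lemma hr_nat_le (n : ℕ) : v (n : ℂ) ≤ 1 := by
  induction n with
  | zero => simp
  | succ n ih =>
    push_cast
    exact (v.map_add _ _).trans (max_le ih (by simp))

lemma hr_odd (hv : v 2 < 1) {n : ℕ} (hn : Odd n) : v (n : ℂ) = 1 := by
  apply le_antisymm (hr_nat_le v n)
  by_contra h
  push Not at h
  obtain ⟨k, rfl⟩ := hn
  have h1 : (1 : ℂ) = ((2 * k + 1 : ℕ) : ℂ) - 2 * (k : ℂ) := by push_cast; ring
  have h2 : v (2 * (k : ℂ)) < 1 := by
    rw [map_mul]
    calc v 2 * v (k : ℂ) ≤ v 2 * 1 := mul_le_mul_right (hr_nat_le v k) _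
      _ = v 2 := mul_one _
      _ < 1 := hv
  have h3 : v 1 < 1 := by
    rw [h1]
    exact (v.map_sub _ _).trans_lt (max_lt h h2)
  rw [map_one] at h3
  exact lt_irrefl _ h3

lemma hr_even (hv : v 2 < 1) {n : ℕ} (hn : Even n) : v (n : ℂ) < 1 := by
  obtain ⟨k, rfl⟩ := hn
  have h1 : ((k + k : ℕ) : ℂ) = 2 * (k : ℂ) := by push_cast; ring
  rw [h1, map_mul]
  calc v 2 * v (k : ℂ) ≤ v 2 * 1 := mul_le_mul_right (hr_nat_le v k) _
    _ = v 2 := mul_one _
    _ < 1 := hv

lemma hr_root_one {z : ℂ} {n : ℕ} (hn : n ≠ 0) (hz : z ^ n = 1) : v z = 1 := by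
  have : v z ^ n = 1 := by rw [← map_pow, hz, map_one]
  exact (pow_left_inj₀ zero_le' zero_le' hn).mp (by rw [this, one_pow])

lemma hr_sum_le {z : ℂ} (hz : v z = 1) (n : ℕ) :
    v (∑ i ∈ Finset.range n, z ^ i) ≤ 1 := by
  apply v.map_sum_le
  intro i _
  rw [map_pow, hz, one_pow]

lemma hr_one_sub_pow {z : ℂ} (hz : v z = 1) (k : ℕ) : v (1 - z ^ k) ≤ v (1 - z) := by
  have h : 1 - z ^ k = (1 - z) * ∑ i ∈ Finset.range k, z ^ i := by
    have := mul_neg_geom_sum z k
    rw [← this]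
  rw [h, map_mul]
  calc v (1 - z) * v (∑ i ∈ Finset.range k, z ^ i) ≤ v (1 - z) * 1 :=
        mul_le_mul_right (hr_sum_le v hz k) _
    _ = v (1 - z) := mul_one _

lemma hr_root_two (hv : v 2 < 1) {η : ℂ} {m : ℕ} (hm : m ≠ 0) (hη : η ^ m = 1)
    (h1 : η ≠ 1) (h2 : η ≠ -1) : v 2 < v (1 - η) := by
  have hve : v η = 1 := hr_root_one v hm hη
  set n := orderOf η with hn
  have hn0 : 0 < n := orderOf_pos_iff.mpr (isOfFinOrder_iff_pow_eq_one.mpr ⟨m, by omega, hη⟩)
  have hn1 : n ≠ 1 := by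
    intro h
    exact h1 (orderOf_eq_one_iff.mp h)
  have hn2 : n ≠ 2 := by
    intro h
    have h3 : η ^ 2 = 1 := by rw [← h]; exact pow_orderOf_eq_one η
    rcases hr_sq_one h3 with h4 | h4
    · exact h1 h4
    · exact h2 h4
  have hn3 : 2 < n := by omega
  rcases Nat.four_dvd_or_exists_odd_prime_and_dvd_of_two_lt hn3 with h4 | ⟨p, hp, hpn, hpo⟩
  · obtain ⟨k, hk⟩ := h4
    have hk0 : 0 < k := by omega
    set μ := η ^ k with hμ
    have hμ4 : μ ^ 4 = 1 := by
      rw [hμ, ← pow_mul, mul_comm, ← hk]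
      exact pow_orderOf_eq_one η
    have hμ2 : μ ^ 2 ≠ 1 := by
      intro h
      rw [hμ, ← pow_mul] at h
      have := orderOf_dvd_of_pow_eq_one h
      have := Nat.le_of_dvd (by omega) this
      omega
    have hμm : μ ^ 2 = -1 := by
      have h5 : (μ ^ 2 - 1) * (μ ^ 2 + 1) = 0 := by ring_nf; rw [hμ4]; ring
      rcases mul_eq_zero.mp h5 with h6 | h6
      · exact absurd (sub_eq_zero.mp h6) hμ2
      · exact eq_neg_of_add_eq_zero_left h6
    have hvμ : v μ = 1 := by rw [hμ, map_pow, hve, one_pow]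
    have h7 : v (1 + μ) = v (1 - μ) := by
      have : 1 + μ = μ * (1 - μ) := by ring_nf; rw [hμm]; ring
      rw [this, map_mul, hvμ, one_mul]
    have h8 : v 2 = v (1 - μ) * v (1 - μ) := by
      have : (2 : ℂ) = (1 + μ) * (1 - μ) := by ring_nf; rw [hμm]; ring
      rw [this, map_mul, h7]
    have h9 : v (1 - μ) < 1 := by
      by_contra h
      push Not at h
      have : 1 ≤ v 2 := by
        rw [h8]
        exact one_le_mul h h
      exact absurd hv (not_lt.mpr this)
    have h10 : 0 < v (1 - μ) := by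
      rw [zero_lt_iff]
      intro h
      rw [h, zero_mul] at h8
      exact two_ne_zero ((Valuation.zero_iff _).mp h8)
    calc v 2 = v (1 - μ) * v (1 - μ) := h8
      _ < v (1 - μ) * 1 := (mul_lt_mul_iff_right₀ h10).mpr h9
      _ = v (1 - μ) := mul_one _
      _ ≤ v (1 - η) := hr_one_sub_pow v hve k
  · obtain ⟨k, hk⟩ := hpn
    have hk0 : 0 < k := by
      rcases Nat.eq_zero_or_pos k with h | h
      · rw [h, mul_zero] at hk; omega
      · exact h
    set ξ := η ^ k with hξ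
    have hvξ : v ξ = 1 := by rw [hξ, map_pow, hve, one_pow]
    have hξp : ξ ^ p = 1 := by
      rw [hξ, ← pow_mul, mul_comm, ← hk]
      exact pow_orderOf_eq_one η
    have hξ1 : ξ ≠ 1 := by
      intro h
      have h5 := orderOf_dvd_of_pow_eq_one (hξ ▸ h)
      have h6 := Nat.le_of_dvd hk0 h5
      have h7 : n = p * k := hk
      have h8 := hp.two_le
      nlinarith
    have hsum : ∑ i ∈ Finset.range p, ξ ^ i = 0 := by
      have h5 := mul_neg_geom_sum ξ p
      rw [hξp, sub_self] at h5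
      rcases mul_eq_zero.mp h5 with h6 | h6
      · exact absurd (sub_eq_zero.mp h6).symm hξ1
      · exact h6
    have h11 : 1 ≤ v (1 - ξ) := by
      by_contra h
      push Not at h
      have h12 : (p : ℂ) = ∑ i ∈ Finset.range p, (1 - ξ ^ i) := by
        rw [Finset.sum_sub_distrib, hsum]
        simp
      have h13 : v (p : ℂ) < 1 := by
        rw [h12]
        apply v.map_sum_lt one_ne_zero
        intro i _
        exact (hr_one_sub_pow v hvξ i).trans_lt h
      rw [hr_odd v hv hpo] at h13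
      exact lt_irrefl _ h13
    calc v 2 < 1 := hv
      _ ≤ v (1 - ξ) := h11
      _ ≤ v (1 - η) := hr_one_sub_pow v hve k

lemma hr_cos (hv : v 2 < 1) (q : ℚ) (h0 : Real.cos (q * Real.pi) ≠ 0)
    (h1 : Real.cos (q * Real.pi) ≠ 1) (h2 : Real.cos (q * Real.pi) ≠ -1) :
    1 < v ((Real.cos (q * Real.pi) : ℝ) : ℂ) := by
  set z : ℂ := Complex.exp ((q : ℂ) * Real.pi * Complex.I) with hz
  have hz0 : z ≠ 0 := Complex.exp_ne_zero _
  have hden : (q.den : ℂ) ≠ 0 := by exact_mod_cast q.den_ne_zero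
  have hzr : z ^ (2 * q.den) = 1 := by
    rw [hz, ← Complex.exp_nat_mul]
    rw [Complex.exp_eq_one_iff]
    refine ⟨q.num, ?_⟩
    have hq : (q : ℂ) * (q.den : ℂ) = (q.num : ℂ) := by
      have := Rat.mul_den_eq_num q
      exact_mod_cast congrArg (fun x : ℚ => (x : ℂ)) this
    push_cast
    linear_combination (2 * Real.pi * Complex.I) * hq
  have hc : ((Real.cos (q * Real.pi) : ℝ) : ℂ) * (2 * z) = 1 + z ^ 2 := by
    rw [Complex.ofReal_cos, Complex.cos]
    have e1 : (((q : ℝ) * Real.pi : ℝ) : ℂ) = (q : ℂ) * Real.pi := by push_cast; ring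
    rw [e1, ← hz]
    have e2 : Complex.exp (-((q : ℂ) * Real.pi) * Complex.I) = z⁻¹ := by
      rw [hz, ← Complex.exp_neg]
      congr 1
      ring
    rw [e2]
    field_simp
    ring
  have hvz : v z = 1 := hr_root_one v (by have := q.den_pos; omega) hzr
  have key : v 2 < v (1 - (-z ^ 2)) := by
    apply hr_root_two v hv (m := 2 * (2 * q.den)) (by have := q.den_pos; omega)
    · rw [pow_mul, neg_sq, ← pow_mul, ← pow_mul]
      have : z ^ (2 * 2 * (2 * q.den)) = (z ^ (2 * q.den)) ^ 4 := by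
        rw [← pow_mul]; congr 1; ring
      rw [show 2 * (2 * (2 * q.den)) = 2 * 2 * (2 * q.den) by ring]
      rw [this, hzr, one_pow]
    · intro h
      have h3 : z ^ 2 = -1 := by linear_combination -h
      rw [h3] at hc
      have h4 : ((Real.cos (q * Real.pi) : ℝ) : ℂ) * (2 * z) = 0 := by rw [hc]; ring
      rcases mul_eq_zero.mp h4 with h5 | h5
      · exact h0 (by exact_mod_cast h5)
      · rcases mul_eq_zero.mp h5 with h6 | h6
        · exact two_ne_zero h6
        · exact hz0 h6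
    · intro h
      have h3 : z ^ 2 = 1 := by linear_combination -h
      have h4 : z = 1 ∨ z = -1 := hr_sq_one h3
      rw [h3] at hc
      rcases h4 with h5 | h5
      · rw [h5] at hc
        apply h1
        have h6 : ((Real.cos (q * Real.pi) : ℝ) : ℂ) = 1 := by linear_combination hc / 2
        exact_mod_cast h6
      · rw [h5] at hc
        apply h2
        have h6 : ((Real.cos (q * Real.pi) : ℝ) : ℂ) = -1 := by linear_combination -hc / 2
        exact_mod_cast h6
  rw [sub_neg_eq_add, ← hc, map_mul, map_mul, hvz, mul_one] at key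
  by_contra h
  push Not at h
  have h20 : 0 < v 2 := by
    rw [zero_lt_iff]
    intro h3
    exact two_ne_zero ((Valuation.zero_iff _).mp h3)
  have : v ((Real.cos (q * Real.pi) : ℝ) : ℂ) * v 2 ≤ 1 * v 2 := mul_le_mul_left h _
  rw [one_mul] at this
  exact absurd key (not_lt.mpr this)

lemma hr_sq (hv : v 2 < 1) {c : ℝ} {r : ℚ} (hc : c ^ 2 = (r : ℝ)) (hr : Even r.den) :
    1 < v (c : ℂ) := by
  have hodd : Odd r.num.natAbs := by
    rw [← Nat.not_even_iff_odd]
    intro h
    have h3 := r.reduced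
    have h4 : 2 ∣ Nat.gcd r.num.natAbs r.den := Nat.dvd_gcd h.two_dvd hr.two_dvd
    rw [Nat.Coprime.gcd_eq_one h3] at h4
    omega
  have h1 : v ((r.num.natAbs : ℕ) : ℂ) = 1 := hr_odd v hv hodd
  have h2 : v ((r.den : ℕ) : ℂ) < 1 := hr_even v hv hr
  have h3 : v (r.num : ℂ) = 1 := by
    rcases Int.natAbs_eq r.num with h | h
    · have h' := congrArg (Int.cast : ℤ → ℂ) h
      rw [Int.cast_natCast] at h'
      rw [h', h1]
    · have h' := congrArg (Int.cast : ℤ → ℂ) h
      rw [Int.cast_neg, Int.cast_natCast] at h'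
      rw [h', Valuation.map_neg, h1]
  have h4 : (c : ℂ) ^ 2 * (r.den : ℂ) = (r.num : ℂ) := by
    have : (r : ℂ) * (r.den : ℂ) = (r.num : ℂ) := by
      have := Rat.mul_den_eq_num r
      exact_mod_cast congrArg (fun x : ℚ => (x : ℂ)) this
    rw [← this]
    congr 1
    exact_mod_cast congrArg (fun x : ℝ => (x : ℂ)) hc
  have h5 : v (c : ℂ) ^ 2 * v (r.den : ℂ) = 1 := by
    rw [← map_pow, ← map_mul, h4, h3]
  by_contra h
  push Not at h
  have h6 : v (c : ℂ) ^ 2 ≤ 1 := pow_le_one₀ zero_le' h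
  have h7 : v (c : ℂ) ^ 2 * v (r.den : ℂ) < 1 := by
    calc v (c : ℂ) ^ 2 * v (r.den : ℂ) ≤ 1 * v (r.den : ℂ) := mul_le_mul_left h6 _
      _ = v (r.den : ℂ) := one_mul _
      _ < 1 := h2
  rw [h5] at h7
  exact lt_irrefl _ h7

end val

/-- There is a valuation of `ℂ` over 2. -/
theorem hr_exists_val : ∃ B : ValuationSubring ℂ, B.valuation (2 : ℂ) < 1 := by
  have hI : Ideal.span {(2 : (Int.castRingHom ℂ).range)} ≠ ⊤ := by
    intro h
    have h1 : (1 : (Int.castRingHom ℂ).range) ∈ Ideal.span {(2 : (Int.castRingHom ℂ).range)} := by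
      rw [h]; trivial
    rw [Ideal.mem_span_singleton'] at h1
    obtain ⟨⟨a, n, hn⟩, ha⟩ := h1
    have h2 : a * 2 = 1 := congrArg Subtype.val ha
    rw [← hn] at h2
    have h3 : n * 2 = 1 := by
      have : ((n * 2 : ℤ) : ℂ) = ((1 : ℤ) : ℂ) := by push_cast; exact h2
      exact_mod_cast this
    omega
  obtain ⟨B, _, hB⟩ := Ideal.image_subset_nonunits_valuationSubring _ hI
  refine ⟨B, ?_⟩
  have h2 : (2 : ℂ) ∈ B.nonunits := by
    apply hB
    exact ⟨2, Ideal.mem_span_singleton_self _, rfl⟩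
  exact h2

end Pool.Agent.H58r
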