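import Pool.Agent.H58r.RectNext
import Pool.Agent.H58r.Root

set_option autoImplicit false

/-! The union of the bad edges is compact; its farthest point is extreme. -/

namespace Pool.Agent.H58r

open Matrix Filter Topology

namespace Rect

lemma sideA_compact (P : Rect) (k : Bool) : IsCompact (P.sideA k) := by
  have h : P.sideA k = (fun s : ℝ => P.c + s • P.a + (if k then P.m else 0) • P.b) ''
      Set.Icc 0 P.l := by
    ext x
    constructor
    · rintro ⟨s, h0, h1, rfl⟩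
      exact ⟨s, ⟨h0, h1⟩, rfl⟩
    · rintro ⟨s, ⟨h0, h1⟩, rfl⟩
      exact ⟨s, h0, h1, rfl⟩
  rw [h]
  apply isCompact_Icc.image
  fun_prop

lemma side_compact (P : Rect) (ax k : Bool) : IsCompact (P.side ax k) :=
  (P.ori ax).sideA_compact k

lemma sideA_convex (P : Rect) (k : Bool) : Convex ℝ (P.sideA k) := by
  intro x hx y hy α β hα hβ hαβ
  obtain ⟨s, hs0, hs1, rfl⟩ := hx
  obtain ⟨t, ht0, ht1, rfl⟩ := hy
  refine ⟨α * s + β * t, by positivity, ?_, ?_⟩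
  · calc α * s + β * t ≤ α * P.l + β * P.l := by gcongr
      _ = P.l := by rw [← add_mul, hαβ, one_mul]
  · have h1 : α = 1 - β := by linarith
    rw [h1]
    module

lemma side_convex (P : Rect) (ax k : Bool) : Convex ℝ (P.side ax k) :=
  (P.ori ax).sideA_convex k

end Rect

variable {ι : Type*} {R : ι → Rect}

/-- the union of the common parts of sides of rectangles with different frames -/
def badSet (R : ι → Rect) : Set (Fin 3 → ℝ) :=
  ⋃ z ∈ {z : (ι × Bool × Bool) × (ι × Bool × Bool) | z.1.1 ≠ z.2.1 ∧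
    (R z.1.1).frame ≠ (R z.2.1).frame ∧
    ((R z.1.1).side z.1.2.1 z.1.2.2 ∩ (R z.2.1).side z.2.2.1 z.2.2.2).Nontrivial},
    ((R z.1.1).side z.1.2.1 z.1.2.2 ∩ (R z.2.1).side z.2.2.1 z.2.2.2)

lemma badSet_compact [Finite ι] (R : ι → Rect) : IsCompact (badSet R) := by
  apply Set.Finite.isCompact_biUnion (Set.toFinite _)
  intro z _
  exact ((R z.1.1).side_compact _ _).inter_right ((R z.2.1).side_compact _ _).isClosed

lemma mem_badSet {x : Fin 3 → ℝ} : x ∈ badSet R ↔ ∃ (i j : ι) (ax k ax' k' : Bool),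
    i ≠ j ∧ (R i).frame ≠ (R j).frame ∧ ((R i).side ax k ∩ (R j).side ax' k').Nontrivial ∧
    x ∈ (R i).side ax k ∩ (R j).side ax' k' := by
  simp only [badSet, Set.mem_iUnion, Set.mem_setOf_eq, exists_prop]
  constructor
  · rintro ⟨⟨⟨i, ax, k⟩, j, ax', k'⟩, ⟨h1, h2, h3⟩, h4⟩
    exact ⟨i, j, ax, k, ax', k', h1, h2, h3, h4⟩
  · rintro ⟨i, j, ax, k, ax', k', h1, h2, h3, h4⟩
    exact ⟨⟨⟨i, ax, k⟩, j, ax', k'⟩, ⟨h1, h2, h3⟩, h4⟩

/-- the unit vector from `x` to `y` -/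
lemma exists_unit {x y : Fin 3 → ℝ} (h : x ≠ y) : ∃ (e : Fin 3 → ℝ) (L : ℝ), 0 < L ∧
    e ⬝ᵥ e = 1 ∧ y = x + L • e := by
  have hd : y - x ≠ 0 := sub_ne_zero.mpr h.symm
  have hpos : 0 < (y - x) ⬝ᵥ (y - x) := by
    have h1 : 0 ≤ (y - x) ⬝ᵥ (y - x) := by
      rw [vec3_dotProduct]; nlinarith [mul_self_nonneg ((y - x) 0), mul_self_nonneg ((y - x) 1),
        mul_self_nonneg ((y - x) 2)]
    have h2 : (y - x) ⬝ᵥ (y - x) ≠ 0 := fun h3 => hd (dotProduct_self_eq_zero.mp h3)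
    exact lt_of_le_of_ne h1 h2.symm
  set L := Real.sqrt ((y - x) ⬝ᵥ (y - x)) with hL
  have hLpos : 0 < L := Real.sqrt_pos.mpr hpos
  have hLL : L * L = (y - x) ⬝ᵥ (y - x) := Real.mul_self_sqrt hpos.le
  refine ⟨L⁻¹ • (y - x), L, hLpos, ?_, ?_⟩
  · rw [smul_dotProduct, dotProduct_smul, smul_eq_mul, smul_eq_mul, ← hLL]
    field_simp
  · rw [smul_smul, mul_inv_cancel₀ hLpos.ne', one_smul]
    abel

/-- a common segment of the boundaries gives a pair of opposite flags -/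
lemma isOpp_of_frequently {i j : ι} (hij : i ≠ j) {x e : Fin 3 → ℝ} (he : e ⬝ᵥ e = 1)
    (hi : ∃ᶠ t in 𝓝[>] (0 : ℝ), x + t • e ∈ (R i).boundary)
    (hj : ∃ᶠ t in 𝓝[>] (0 : ℝ), x + t • e ∈ (R j).boundary) :
    ∃ ax sg ax' sg', IsOpp R x (i, ax, sg) (j, ax', sg') := by
  obtain ⟨ax, sg, h1, h2⟩ := (R i).flag_of_frequently he hi
  obtain ⟨ax', sg', h3, h4⟩ := (R j).flag_of_frequently he hj
  exact ⟨ax, sg, ax', sg', h1, h3, hij.symm, h4.trans h2.symm⟩

lemma bad_of_mem_badSet {x : Fin 3 → ℝ} (hx : x ∈ badSet R) : ∃ f, Bad R x f := by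
  obtain ⟨i, j, ax, k, ax', k', hij, hfr, hnt, hx⟩ := mem_badSet.mp hx
  obtain ⟨y, hy, hyx⟩ := hnt.exists_ne x
  obtain ⟨e, L, hL, he, rfl⟩ := exists_unit hyx.symm
  have hev : ∀ᶠ t in 𝓝[>] (0 : ℝ), x + t • e ∈ (R i).side ax k ∩ (R j).side ax' k' := by
    filter_upwards [Ioo_mem_nhdsGT hL] with t ht
    have hconv := ((R i).side_convex ax k).inter ((R j).side_convex ax' k')
    have h1 : x + t • e = (1 - t / L) • x + (t / L) • (x + L • e) := by
      have hL' := hL.ne'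
      have : (t / L) * L = t := by field_simp
      rw [smul_add, smul_smul, this]
      module
    rw [h1]
    apply hconv hx hy
    · rw [sub_nonneg, div_le_one hL]; exact ht.2.le
    · exact div_nonneg ht.1.le hL.le
    · ring
  obtain ⟨a1, a2, a3, a4, h⟩ := isOpp_of_frequently (R := R) hij he
    ((hev.mono fun t ht => (R i).side_subset _ _ ht.1).frequently)
    ((hev.mono fun t ht => (R j).side_subset _ _ ht.2).frequently)
  exact ⟨_, _, h, fun h' => hfr h'.symm⟩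

lemma badSet_of_bad {x : Fin 3 → ℝ} {f : ι × Bool × Bool} (hf : Bad R x f) :
    ∃ ε : ℝ, 0 < ε ∧ ∀ t : ℝ, 0 ≤ t → t ≤ ε → x + t • dr R f ∈ badSet R := by
  obtain ⟨g, ⟨h1, h2, h3, h4⟩, hne⟩ := hf
  obtain ⟨k, ε, hε, hm⟩ := (R f.1).flag_move h1
  obtain ⟨k', ε', hε', hm'⟩ := (R g.1).flag_move h2
  have h4' : (R g.1).dir g.2.1 g.2.2 = (R f.1).dir f.2.1 f.2.2 := h4
  rw [h4'] at hm'
  refine ⟨min ε ε', lt_min hε hε', ?_⟩
  have key : ∀ t, 0 ≤ t → t ≤ min ε ε' →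
      x + t • dr R f ∈ (R f.1).side f.2.1 k ∩ (R g.1).side g.2.1 k' := by
    intro t ht0 ht
    exact ⟨hm t ht0 (ht.trans (min_le_left _ _)), hm' t ht0 (ht.trans (min_le_right _ _))⟩
  intro t ht0 ht
  rw [mem_badSet]
  refine ⟨f.1, g.1, f.2.1, k, g.2.1, k', h3.symm, hne.symm, ?_, key t ht0 ht⟩
  refine ⟨x + (0 : ℝ) • dr R f, key 0 le_rfl (lt_min hε hε').le, x + (min ε ε') • dr R f,
    key _ (lt_min hε hε').le le_rfl, ?_⟩
  intro h
  have h5 : (0 : ℝ) • dr R f = (min ε ε') • dr R f := add_left_cancel h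
  have h6 := congrArg (fun z => z ⬝ᵥ dr R f) h5
  simp only [smul_dotProduct, dr_unit, smul_eq_mul, mul_one] at h6
  exact absurd (lt_min hε hε') (by rw [← h6]; exact lt_irrefl _)

section val

variable {Γ₀ : Type*} [LinearOrderedCommGroupWithZero Γ₀] (w : Valuation ℝ Γ₀)

/-- If the value of `n . n'` is > 1 across every bad edge, there is no bad edge. -/
theorem badSet_eq_empty [Finite ι] (hR : ClosedUp R)
    (hw : ∀ p f g, IsOpp R p f g → (R g.1).frame ≠ (R f.1).frame →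
      1 < w ((R f.1).normal ⬝ᵥ (R g.1).normal)) : badSet R = ∅ := by
  by_contra hne
  rw [← Ne, ← Set.nonempty_iff_ne_empty] at hne
  have hcont : Continuous (fun x : Fin 3 → ℝ => x ⬝ᵥ x) := by
    simp only [vec3_dotProduct]
    fun_prop
  obtain ⟨p, hp, hmax⟩ := (badSet_compact R).exists_isMaxOn hne hcont.continuousOn
  obtain ⟨f, hf⟩ := bad_of_mem_badSet hp
  refine no_extreme w hR (hw p) (u := p) ?_ f hf
  intro f hf
  obtain ⟨ε, hε, hm⟩ := badSet_of_bad hf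
  have h1 := hmax (hm ε hε.le le_rfl)
  simp only [Set.mem_setOf_eq] at h1
  have h2 : (p + ε • dr R f) ⬝ᵥ (p + ε • dr R f) =
      p ⬝ᵥ p + 2 * ε * (p ⬝ᵥ dr R f) + ε * ε := by
    rw [add_dotProduct, dotProduct_add, dotProduct_add, smul_dotProduct, dotProduct_smul,
      dotProduct_smul, smul_dotProduct, dr_unit, dotProduct_comm (dr R f) p]
    simp only [smul_eq_mul]
    ring
  rw [h2] at h1
  by_contra h3
  push Not at h3
  have h4 : 0 ≤ 2 * ε * (p ⬝ᵥ dr R f) := by positivity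
  nlinarith [mul_pos hε hε]

end val

end Pool.Agent.H58r
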