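import Pool.Agent.H58r.RectTau

set_option autoImplicit false

/-! At an extreme point every bad flag has a successor in a perpendicular direction. -/

namespace Pool.Agent.H58r

open Matrix Filter Topology

variable {ι : Type*} {R : ι → Rect}

/-- `g` is the flag on the other side of the edge of `f` -/
def IsOpp (R : ι → Rect) (p : Fin 3 → ℝ) (f g : ι × Bool × Bool) : Prop :=
  flagAt R p f ∧ flagAt R p g ∧ g.1 ≠ f.1 ∧ dr R g = dr R f

/-- `f` is a flag whose edge separates two different frames -/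
def Bad (R : ι → Rect) (p : Fin 3 → ℝ) (f : ι × Bool × Bool) : Prop :=
  ∃ g, IsOpp R p f g ∧ (R g.1).frame ≠ (R f.1).frame

lemma IsOpp.symm {p : Fin 3 → ℝ} {f g : ι × Bool × Bool} (h : IsOpp R p f g) :
    IsOpp R p g f := ⟨h.2.1, h.1, h.2.2.1.symm, h.2.2.2.symm⟩

lemma IsOpp.unique [Finite ι] (hR : ClosedUp R) {p : Fin 3 → ℝ} {f g g' : ι × Bool × Bool}
    (h : IsOpp R p f g) (h' : IsOpp R p f g') : g = g' := by
  obtain ⟨g0, _, _, _, hu⟩ := exists_tau hR h.1
  rw [hu g h.2.1 h.2.2.1 h.2.2.2, hu g' h'.2.1 h'.2.2.1 h'.2.2.2]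

lemma exists_opp [Finite ι] (hR : ClosedUp R) {p : Fin 3 → ℝ} {f : ι × Bool × Bool}
    (hf : flagAt R p f) : ∃ g, IsOpp R p f g := by
  obtain ⟨g, h1, h2, h3, _⟩ := exists_tau hR hf
  exact ⟨g, hf, h1, h2, h3⟩

open Classical in
lemma even_class [Fintype ι] (p : Fin 3 → ℝ) (Φ : Set (Fin 3 → ℝ)) :
    Even (Finset.univ.filter (fun f : ι × Bool × Bool =>
      flagAt R p f ∧ (R f.1).frame = Φ)).card := by
  rw [Finset.card_filter, Fintype.sum_prod_type]
  apply Finset.even_sum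
  intro i _
  by_cases h : (R i).frame = Φ
  · have := (R i).even_flags p
    simp only [h, and_true]
    exact this
  · simp [h]

open Classical in
lemma even_good [Fintype ι] (hR : ClosedUp R) (p : Fin 3 → ℝ) (Φ : Set (Fin 3 → ℝ)) :
    Even (Finset.univ.filter (fun f : ι × Bool × Bool =>
      (flagAt R p f ∧ (R f.1).frame = Φ) ∧ ¬ Bad R p f)).card := by
  set C := Finset.univ.filter (fun f : ι × Bool × Bool =>
      (flagAt R p f ∧ (R f.1).frame = Φ) ∧ ¬ Bad R p f) with hC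
  have hmem : ∀ f ∈ C, ∃ g, IsOpp R p f g ∧ g ∈ C := by
    intro f hf
    rw [hC, Finset.mem_filter] at hf
    obtain ⟨_, ⟨h1, h2⟩, h3⟩ := hf
    obtain ⟨g, hg⟩ := exists_opp hR h1
    have h4 : (R g.1).frame = (R f.1).frame := by
      by_contra h
      exact h3 ⟨g, hg, h⟩
    refine ⟨g, hg, ?_⟩
    rw [hC, Finset.mem_filter]
    refine ⟨Finset.mem_univ _, ⟨hg.2.1, h4.trans h2⟩, ?_⟩
    rintro ⟨f', hf', hne⟩
    have h5 : f' = f := hf'.unique hR hg.symm
    rw [h5] at hne
    exact hne h4.symm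
  choose! τ hτ1 hτ2 using hmem
  have hsum : ∑ _f ∈ C, (1 : ZMod 2) = 0 := by
    apply Finset.sum_involution (fun f _ => τ f)
    · intro f _; decide
    · intro f hf _ h
      exact (hτ1 f hf).2.2.1 (by rw [h])
    · intro f hf; exact hτ2 f hf
    · intro f hf
      exact (hτ1 (τ f) (hτ2 f hf)).unique hR (hτ1 f hf).symm
  rw [Finset.sum_const, nsmul_eq_mul, mul_one] at hsum
  exact (ZMod.natCast_eq_zero_iff_even).mp hsum

/-- The other bad flag in the same frame class. -/
lemma exists_partner [Finite ι] (hR : ClosedUp R) {p : Fin 3 → ℝ} {f : ι × Bool × Bool}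
    (hf : Bad R p f) : ∃ f', f' ≠ f ∧ Bad R p f' ∧ (R f'.1).frame = (R f.1).frame := by
  classical
  have := Fintype.ofFinite ι
  set Φ := (R f.1).frame with hΦ
  have h1 := even_class (R := R) p Φ
  have h2 := even_good hR p Φ
  have h3 : Even (Finset.univ.filter (fun f : ι × Bool × Bool =>
      (flagAt R p f ∧ (R f.1).frame = Φ) ∧ Bad R p f)).card := by
    have h4 := Finset.card_filter_add_card_filter_not
      (s := Finset.univ.filter (fun f : ι × Bool × Bool =>
      flagAt R p f ∧ (R f.1).frame = Φ)) (fun f => Bad R p f)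
    rw [Finset.filter_filter, Finset.filter_filter] at h4
    rw [← h4] at h1
    exact (Nat.even_add.mp h1).mpr h2
  set C := Finset.univ.filter (fun f : ι × Bool × Bool =>
      (flagAt R p f ∧ (R f.1).frame = Φ) ∧ Bad R p f) with hC
  have hfC : f ∈ C := by
    rw [hC, Finset.mem_filter]
    obtain ⟨g, hg, hne⟩ := hf
    exact ⟨Finset.mem_univ _, ⟨hg.1, rfl⟩, g, hg, hne⟩
  have hcard : 1 < C.card := by
    have h5 : 0 < C.card := Finset.card_pos.mpr ⟨f, hfC⟩
    rcases h3 with ⟨k, hk⟩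
    omega
  obtain ⟨f', hf', hne⟩ := Finset.exists_mem_ne hcard f
  rw [hC, Finset.mem_filter] at hf'
  exact ⟨f', hne, hf'.2.2, hf'.2.1.2⟩

/-- successor relation on bad flags -/
def Succ (R : ι → Rect) (p : Fin 3 → ℝ) (f g : ι × Bool × Bool) : Prop :=
  ∃ f', (R f'.1).frame = (R f.1).frame ∧ IsOpp R p f' g ∧ (R g.1).frame ≠ (R f'.1).frame ∧
    dr R f ⬝ᵥ dr R g = 0

lemma frame_mem (f : ι × Bool × Bool) : dr R f ∈ (R f.1).frame := by
  rw [(R f.1).frame_eq_tri f.2.1 f.2.2]
  exact Or.inl rfl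

lemma exists_succ [Finite ι] (hR : ClosedUp R) {p u : Fin 3 → ℝ}
    (hu : ∀ f, Bad R p f → u ⬝ᵥ dr R f < 0) {f : ι × Bool × Bool} (hf : Bad R p f) :
    ∃ g, Bad R p g ∧ Succ R p f g := by
  obtain ⟨f', hne, hbad, hfr⟩ := exists_partner hR hf
  obtain ⟨g, hg, hgne⟩ := hbad
  refine ⟨g, ⟨f', hg.symm, hgne.symm⟩, f', hfr, hg, hgne, ?_⟩
  rw [hg.2.2.2]
  -- directions of f and f'
  have h1 : dr R f ∈ tri (dr R f') (R f'.1).normal := by
    have h2 := frame_mem (R := R) f
    rw [← hfr, (R f'.1).frame_eq_tri f'.2.1 f'.2.2] at h2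
    exact h2
  rcases tri_trichotomy ((R f'.1).dir_normal f'.2.1 f'.2.2) h1 with h | h | h
  · exfalso
    by_cases h3 : f'.1 = f.1
    · apply hne
      obtain ⟨i, ax, sg⟩ := f
      obtain ⟨i', ax', sg'⟩ := f'
      simp only at h3
      subst h3
      obtain ⟨h5, h6⟩ := (R i').dir_inj (h : (R i').dir ax sg = (R i').dir ax' sg')
      simp only at h5 h6
      rw [h5, h6]
    · obtain ⟨f1, hf1, hf1ne⟩ := hf
      have h4 : f1 = f' := hf1.unique hR ⟨hf1.1, hg.1, h3, h.symm⟩
      rw [h4] at hf1ne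
      exact hf1ne hfr
  · exfalso
    have h3 := hu f hf
    have h4 := hu f' ⟨g, hg, hgne⟩
    rw [h, dotProduct_neg] at h3
    have h5 : u ⬝ᵥ dr R f' = u ⬝ᵥ (R f'.1).dir f'.2.1 f'.2.2 := rfl
    rw [h5] at h4
    linarith
  · rw [dotProduct_comm]; exact h

section val

variable {Γ₀ : Type*} [LinearOrderedCommGroupWithZero Γ₀] (w : Valuation ℝ Γ₀)

/-- There is no point `p` with a bad flag, all bad flags on one side of a plane, if the value
of `n . n'` is > 1 across each bad edge. -/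
theorem no_extreme [Finite ι] (hR : ClosedUp R)
    {p u : Fin 3 → ℝ} (hw : ∀ f g, IsOpp R p f g → (R g.1).frame ≠ (R f.1).frame →
      1 < w ((R f.1).normal ⬝ᵥ (R g.1).normal))
    (hu : ∀ f, Bad R p f → u ⬝ᵥ dr R f < 0) (f : ι × Bool × Bool) : ¬ Bad R p f := by
  classical
  intro hf
  have hex : ∀ f : {f // Bad R p f}, ∃ g : {f // Bad R p f}, Succ R p f.1 g.1 := by
    rintro ⟨f, hf⟩
    obtain ⟨g, h1, h2⟩ := exists_succ hR hu hf
    exact ⟨⟨g, h1⟩, h2⟩
  choose nx hnx using hex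
  set g : ℕ → {f // Bad R p f} := fun n => nx^[n] ⟨f, hf⟩ with hg
  have hgs : ∀ n, Succ R p (g n).1 (g (n + 1)).1 := by
    intro n
    have : g (n + 1) = nx (g n) := by
      simp only [hg, Function.iterate_succ_apply']
    rw [this]
    exact hnx _
  have hval : ∀ n, 1 < w (dr R (g n).1 ⬝ᵥ dr R (g (n + 2)).1) := by
    intro n
    obtain ⟨f1, a1, a2, a3, a4⟩ := hgs n
    obtain ⟨f2, b1, b2, b3, b4⟩ := hgs (n + 1)
    have hn := hw f1 (g (n + 1)).1 a2 a3
    have hd := a2.2.2.2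
    -- the common direction
    apply tri_val w (e := dr R f1) (n := (R f1.1).normal) (n' := (R (g (n + 1)).1.1).normal)
      (dr_unit f1) (R f1.1).normal_unit (R (g (n + 1)).1.1).normal_unit
      ((R f1.1).dir_normal _ _) (by rw [← hd]; exact (R (g (n + 1)).1.1).dir_normal _ _) hn
    · have h2 := frame_mem (R := R) (g n).1
      rw [← a1, (R f1.1).frame_eq_tri f1.2.1 f1.2.2] at h2
      exact h2
    · rw [← hd]; exact a4
    · have h2 := frame_mem (R := R) f2
      rw [b1, (R (g (n + 1)).1.1).frame_eq_tri (g (n + 1)).1.2.1 (g (n + 1)).1.2.2] at h2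
      rw [show g (n + 2) = g (n + 1 + 1) from rfl, b2.2.2.2, ← hd]
      exact h2
    · rw [← hd, dotProduct_comm]; exact b4
  obtain ⟨m, n, hmn, heq⟩ := Finite.exists_ne_map_eq_of_infinite g
  wlog hlt : m < n generalizing m n
  · exact this n m hmn.symm heq.symm (by omega)
  have hchain := hr_chain w (fun k => dr R (g (m + k)).1) (fun k => dr_unit _)
    (fun k => by obtain ⟨_, _, _, _, h⟩ := hgs (m + k); exact h)
    (fun k => hval (m + k))
  obtain ⟨d, rfl⟩ := Nat.exists_eq_add_of_lt hlt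
  rcases Nat.eq_zero_or_pos d with h0 | h0
  · obtain ⟨_, _, _, _, h⟩ := hgs m
    rw [h0] at heq
    have h2 : g (m + 1) = g m := heq.symm
    rw [h2, dr_unit] at h
    exact one_ne_zero h
  · obtain ⟨d', rfl⟩ := Nat.exists_eq_add_of_lt h0
    have h3 := hchain d'
    simp only [add_zero] at h3
    have h4 : g (m + (d' + 2)) = g m := by
      rw [heq]; congr 1; ring
    rw [h4, dr_unit, map_one] at h3
    exact lt_irrefl _ h3

end val

end Pool.Agent.H58r
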