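import Pool.Agent.H58r.RectFrame

set_option autoImplicit false

/-! The flags of a closed up family at a point: crossing a side, parity. -/

namespace Pool.Agent.H58r

open Matrix Filter Topology

namespace Rect

lemma dir_inj (P : Rect) {ax sg ax' sg' : Bool} (h : P.dir ax sg = P.dir ax' sg') :
    ax = ax' ∧ sg = sg' := by
  have hba : P.b ⬝ᵥ P.a = 0 := by rw [dotProduct_comm]; exact P.hab
  have h1 := congrArg (fun x => P.a ⬝ᵥ x) h
  have h2 := congrArg (fun x => P.b ⬝ᵥ x) h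
  cases ax <;> cases sg <;> cases ax' <;> cases sg' <;>
    first
    | exact ⟨rfl, rfl⟩
    | (exfalso; revert h1 h2
       norm_num [dir, swap, dotProduct_neg, P.ha, P.hb, P.hab, hba])

open Classical in
lemma even_flags (P : Rect) (p : Fin 3 → ℝ) :
    Even (∑ q : Bool × Bool, if P.IsFlag p q.1 q.2 then 1 else 0) := by
  by_cases h : ∃ s t : ℝ, p = P.c + s • P.a + t • P.b
  · obtain ⟨s, t, hp⟩ := h
    have h1 : ∀ sg, P.IsFlag p true sg ↔
        (t = 0 ∨ t = P.m) ∧ (if sg then 0 ≤ s ∧ s < P.l else 0 < s ∧ s ≤ P.l) := by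
      intro sg
      rw [hp]
      exact P.flagA_iff sg
    have h2 : ∀ sg, P.IsFlag p false sg ↔
        (s = 0 ∨ s = P.l) ∧ (if sg then 0 ≤ t ∧ t < P.m else 0 < t ∧ t ≤ P.m) := by
      intro sg
      have h3 : p = P.swap.c + t • P.swap.a + s • P.swap.b := by
        rw [hp]; simp [swap]; abel
      rw [h3]
      exact P.swap.flagA_iff sg
    rw [Fintype.sum_prod_type, Fintype.sum_bool, Fintype.sum_bool, Fintype.sum_bool]
    simp only [h1, h2, if_true, Bool.false_eq_true, if_false]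
    have hl := P.hl
    have hm := P.hm
    have regime : ∀ (u L : ℝ), 0 < L →
        ((¬ (u = 0 ∨ u = L) ∧ ¬ (0 ≤ u ∧ u < L) ∧ ¬ (0 < u ∧ u ≤ L)) ∨
        ((u = 0 ∨ u = L) ∧ (0 ≤ u ∧ u < L) ∧ ¬ (0 < u ∧ u ≤ L)) ∨
        (¬ (u = 0 ∨ u = L) ∧ (0 ≤ u ∧ u < L) ∧ (0 < u ∧ u ≤ L)) ∨
        ((u = 0 ∨ u = L) ∧ ¬ (0 ≤ u ∧ u < L) ∧ (0 < u ∧ u ≤ L))) := by
      intro u L hL
      rcases lt_trichotomy u 0 with h | h | h
      · left
        refine ⟨?_, ?_, ?_⟩
        · rintro (h' | h') <;> linarith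
        · rintro ⟨h', _⟩; linarith
        · rintro ⟨h', _⟩; linarith
      · right; left
        refine ⟨Or.inl h, ⟨h.ge, by linarith⟩, ?_⟩
        rintro ⟨h', _⟩; linarith
      · rcases lt_trichotomy u L with h' | h' | h'
        · right; right; left
          refine ⟨?_, ⟨h.le, h'⟩, ⟨h, h'.le⟩⟩
          rintro (h'' | h'') <;> linarith
        · right; right; right
          refine ⟨Or.inr h', ?_, ⟨h, h'.le⟩⟩
          rintro ⟨_, h''⟩; linarith
        · left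
          refine ⟨?_, ?_, ?_⟩
          · rintro (h'' | h'') <;> linarith
          · rintro ⟨_, h''⟩; linarith
          · rintro ⟨_, h''⟩; linarith
    rcases regime s P.l hl with ⟨a1, a2, a3⟩ | ⟨a1, a2, a3⟩ | ⟨a1, a2, a3⟩ | ⟨a1, a2, a3⟩ <;>
    rcases regime t P.m hm with ⟨b1, b2, b3⟩ | ⟨b1, b2, b3⟩ | ⟨b1, b2, b3⟩ | ⟨b1, b2, b3⟩ <;>
    simp only [a1, a2, a3, b1, b2, b3, and_true, and_false, if_true, if_false] <;> decide
  · have h0 : ∀ q : Bool × Bool, ¬ P.IsFlag p q.1 q.2 := by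
      rintro ⟨ax, sg⟩ ⟨k, s, hp, _⟩
      apply h
      cases ax
      · exact ⟨(if k then P.swap.m else 0), s, by
          rw [hp]; simp only [ori_false, swap]; abel⟩
      · exact ⟨s, (if k then P.m else 0), by rw [hp]; simp only [ori_true]⟩
    simp [h0]

end Rect

variable {ι : Type*} (R : ι → Rect)

def flagAt (p : Fin 3 → ℝ) (f : ι × Bool × Bool) : Prop := (R f.1).IsFlag p f.2.1 f.2.2

def dr (f : ι × Bool × Bool) : Fin 3 → ℝ := (R f.1).dir f.2.1 f.2.2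

variable {R}

lemma dr_unit (f : ι × Bool × Bool) : dr R f ⬝ᵥ dr R f = 1 := (R f.1).dir_unit _ _

lemma flag_eventually {p : Fin 3 → ℝ} {f : ι × Bool × Bool} (hf : flagAt R p f) :
    ∀ᶠ t in 𝓝[>] (0 : ℝ), p + t • dr R f ∈ (R f.1).boundary := by
  obtain ⟨k, ε, hε, hm⟩ := (R f.1).flag_move hf
  filter_upwards [Ioo_mem_nhdsGT hε] with t ht
  exact (R f.1).side_subset _ _ (hm t ht.1.le ht.2.le)

lemma finite_eventually {X : Set (Fin 3 → ℝ)} (hX : X.Finite) (p : Fin 3 → ℝ) {e : Fin 3 → ℝ}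
    (he : e ⬝ᵥ e = 1) : ∀ᶠ t in 𝓝[>] (0 : ℝ), p + t • e ∉ X := by
  have hinj : Function.Injective (fun t : ℝ => p + t • e) := by
    intro s t h
    have h1 : s • e = t • e := add_left_cancel h
    have := congrArg (fun x => x ⬝ᵥ e) h1
    simpa [he] using this
  have hT : ((fun t : ℝ => p + t • e) ⁻¹' X).Finite := hX.preimage hinj.injOn
  have hT' : (((fun t : ℝ => p + t • e) ⁻¹' X) \ {0}).Finite := hT.subset Set.diff_subset
  have h1 : ∀ᶠ t in 𝓝 (0 : ℝ), t ∉ (((fun t : ℝ => p + t • e) ⁻¹' X) \ {0}) :=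
    hT'.isClosed.isOpen_compl.mem_nhds (by simp)
  filter_upwards [nhdsWithin_le_nhds h1, self_mem_nhdsWithin] with t ht ht0 hx
  exact ht ⟨hx, ne_of_gt ht0⟩

theorem exists_tau [Finite ι] (hR : ClosedUp R) {p : Fin 3 → ℝ} {f : ι × Bool × Bool}
    (hf : flagAt R p f) : ∃ g, flagAt R p g ∧ g.1 ≠ f.1 ∧ dr R g = dr R f ∧
      ∀ g', flagAt R p g' → g'.1 ≠ f.1 → dr R g' = dr R f → g' = g := by
  have he := dr_unit (R := R) f
  have hu : ∀ᶠ t in 𝓝[>] (0 : ℝ),
      ∃! j, j ≠ f.1 ∧ p + t • dr R f ∈ (R j).boundary := by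
    filter_upwards [finite_eventually (hR f.1) p he, flag_eventually hf] with t h1 h2
    by_contra h3
    exact h1 ⟨h2, h3⟩
  have hfr : ∃ j, ∃ᶠ t in 𝓝[>] (0 : ℝ), j ≠ f.1 ∧ p + t • dr R f ∈ (R j).boundary := by
    by_contra h
    have h1 : ∀ j, ∀ᶠ t in 𝓝[>] (0 : ℝ), ¬ (j ≠ f.1 ∧ p + t • dr R f ∈ (R j).boundary) := by
      intro j
      exact not_frequently.mp (not_exists.mp h j)
    have h2 := eventually_all.mpr h1
    obtain ⟨t, ht1, ht2⟩ := (hu.and h2).exists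
    obtain ⟨j, hj, _⟩ := ht1
    exact ht2 j hj
  obtain ⟨j, hj⟩ := hfr
  have hjne : j ≠ f.1 := hj.exists.choose_spec.1
  obtain ⟨ax, sg, hfl, hdir⟩ := (R j).flag_of_frequently he (hj.mono fun t ht => ht.2)
  refine ⟨(j, ax, sg), hfl, hjne, hdir, ?_⟩
  intro g' hg' hne hd
  have h1 := flag_eventually hg'
  have h2 := flag_eventually (R := R) (f := (j, ax, sg)) hfl
  obtain ⟨t, ⟨ht1, ht2⟩, ht3⟩ := ((h1.and h2).and hu).exists
  have hdir' : dr R (j, ax, sg) = dr R f := hdir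
  rw [hd] at ht1
  rw [hdir'] at ht2
  have hj' : g'.1 = j := ht3.unique ⟨hne, ht1⟩ ⟨hjne, ht2⟩
  obtain ⟨j', ax', sg'⟩ := g'
  simp only at hj'
  subst hj'
  have h4 : (R j').dir ax' sg' = (R j').dir ax sg := by
    have : dr R (j', ax', sg') = dr R (j', ax, sg) := hd.trans hdir'.symm
    exact this
  obtain ⟨h5, h6⟩ := (R j').dir_inj h4
  rw [h5, h6]

end Pool.Agent.H58r
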